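import Pool.Agent.H16.FSFree

set_option autoImplicit false

namespace Pool.Agent.Results.MP_f0f681_an.Counter

open Pool.Agent.H16.FSAlg Filter Topology FreeGroup Polynomial
open scoped InnerProductSpace ComplexConjugate Classical

section
variable {G : Type} [Group G]

def Rp (T : ∀ ρ : URep G, ρ.H →L[ℂ] ρ.H) : Prop := ∃ a, ∀ ρ, op ρ a = T ρ

lemma Rp.π (g : G) : Rp fun ρ => ρ.π g := ⟨.single g 1, fun ρ => by simp [op]⟩

lemma Rp.add {S T : ∀ ρ : URep G, ρ.H →L[ℂ] ρ.H} : Rp S → Rp T → Rp fun ρ => S ρ + T ρ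
  | ⟨a, ha⟩, ⟨b, hb⟩ => ⟨a + b, fun ρ => by beta_reduce; rw [op_eq, map_add, ← ha, ← hb]; rfl⟩

lemma Rp.smul {S : ∀ ρ : URep G, ρ.H →L[ℂ] ρ.H} (c : ℂ) : Rp S → Rp fun ρ => c • S ρ
  | ⟨a, ha⟩ => ⟨c • a, fun ρ => by beta_reduce; rw [op_eq, map_smul, ← ha]; rfl⟩

lemma Rp.mul {S T : ∀ ρ : URep G, ρ.H →L[ℂ] ρ.H} : Rp S → Rp T → Rp fun ρ => S ρ * T ρ
  | ⟨a, ha⟩, ⟨b, hb⟩ => ⟨(MonoidAlgebra.ofCoeff a * MonoidAlgebra.ofCoeff b).coeff, fun ρ => by
    beta_reduce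
    rw [op, ← MonoidAlgebra.lift_apply, _root_.map_mul, MonoidAlgebra.lift_apply,
      MonoidAlgebra.lift_apply, ← ha, ← hb]; rfl⟩

lemma Rp.sum {ι : Type} (s : Finset ι) (g : ι → G) : Rp fun ρ => ∑ i ∈ s, ρ.π (g i) :=
  ⟨∑ i ∈ s, .single (g i) 1, fun ρ => by simp [op_eq]⟩

lemma Rp.aeval {S : ∀ ρ : URep G, ρ.H →L[ℂ] ρ.H} (h : Rp S) (p : ℝ[X]) :
    Rp fun ρ => aeval (S ρ) p := by
  induction p using Polynomial.induction_on with
  | C a => simpa [Algebra.algebraMap_eq_smul_one] using (Rp.π (1 : G)).smul a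
  | add p q hp hq => simpa using hp.add hq
  | monomial n a ih => simpa [pow_succ, mul_assoc] using ih.mul h

lemma spec {ρ : URep G} {T : ρ.H →L[ℂ] ρ.H} {c : ℝ} (h : ‖T‖ ≤ c) :
    spectrum ℝ T ⊆ Set.Icc (-c) c := fun _ hx => abs_le.1
  ((spectrum.norm_le_norm_mul_of_mem hx).trans ((mul_le_of_le_one_right (norm_nonneg _)
    ContinuousLinearMap.norm_id_le).trans h))

end

abbrev G := F × rootsOfUnity 4 ℂ

noncomputable def z : G := (1, ⟨Units.mk0 Complex.I Complex.I_ne_zero, by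
  rw [mem_rootsOfUnity]; ext; simp⟩)

noncomputable def χ : G →* ℂ :=
  (Units.coeHom ℂ).comp ((rootsOfUnity 4 ℂ).subtype.comp (MonoidHom.snd _ _))

lemma χ_norm (g : G) : ‖χ g‖ = 1 := Complex.norm_eq_one_of_mem_rootsOfUnity g.2.2

noncomputable def h (ρ : URep G) : ρ.H →L[ℂ] ρ.H :=
  ∑ i : Fin 64, ρ.π (of i, 1) + ∑ i : Fin 64, ρ.π (of i, 1)⁻¹

lemma Rp.h : Rp h := by
  obtain ⟨a, ha⟩ := (Rp.sum Finset.univ fun i : Fin 64 => ((of i, 1) : G)).add
    (Rp.sum Finset.univ fun i : Fin 64 => ((of i, 1) : G)⁻¹)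
  exact ⟨a, fun ρ => by rw [ha, Counter.h]⟩

lemma h_eq (ρ : URep G) : h ρ = ∑ i : Fin 64, ρ.π (of i, 1) + star (∑ i : Fin 64, ρ.π (of i, 1)) :=
  by simp only [h, star_sum, star_π]

lemma h_sa (ρ : URep G) : IsSelfAdjoint (h ρ) := h_eq ρ ▸ .add_star_self _

lemma h_le (ρ : URep G) {c : ℝ} (hc : ‖∑ i : Fin 64, ρ.π (of i, 1)‖ ≤ c) : ‖h ρ‖ ≤ 2 * c := by
  rw [h_eq]
  exact (norm_add_le _ _).trans (by rw [norm_star]; linarith)

noncomputable def E (ρ : URep G) : ρ.H →L[ℂ] ρ.H :=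
  ρ.π 1 + (Complex.I - 1) • ρ.π z + (-Complex.I) • ρ.π (z * z)

lemma E_le (ρ : URep G) : ‖E ρ‖ ≤ 4 := by
  have := norm_sub_le Complex.I 1
  have h1 := π_le ρ 1
  have h2 := mul_le_mul this (π_le ρ z) (norm_nonneg _) (by positivity)
  have h3 := π_le ρ (z * z)
  refine norm_add₃_le.trans ?_
  simp only [norm_smul, norm_neg, Complex.norm_I, NormOneClass.norm_one] at h2 ⊢
  linarith

noncomputable def σ (c : G →* ℂ) (hc : ∀ g, ‖c g‖ = 1) : URep G :=
  tw (PS.comp (MonoidHom.fst _ _)) c hc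

lemma σ_coef (c : G →* ℂ) (hc : ∀ g, ‖c g‖ = 1) (g : G) : c g * (7 / 25) ^ g.1.toWord.length =
    ⟪(lp.single 2 1 1 : L2 F), (σ c hc).π g (lp.single 2 1 1 : L2 F)⟫_ℂ := by
  change _ = ⟪(lp.single 2 1 1 : L2 F), c g • PS g.1 (lp.single 2 1 1)⟫_ℂ
  rw [inner_smul_right, lp.inner_single_left, PS_coef]
  simp

def S : Set (G → ℂ) := {f | f ∈ B G ∧ (Summable (fun x => ‖f x‖ ^ 2) ∨
  (Summable (fun x => ‖f x‖ ^ 4) ∧ ∀ x, f (x * z) = Complex.I * f x) ∨ f = 1)}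

lemma S_mul : ∀ f ∈ S, ∀ g ∈ S, f * g ∈ S := by
  have k : ∀ f ∈ B G, ∀ g : G → ℂ, Summable (fun x => ‖g x‖ ^ 2) →
      Summable fun x => ‖(f * g) x‖ ^ 2 := fun f hf g hg => by
    obtain ⟨C, hC⟩ := bd_of_mem hf
    refine (hg.mul_left (C ^ 2)).of_nonneg_of_le (fun _ => by positivity) fun x => ?_
    rw [Pi.mul_apply, norm_mul, mul_pow]
    gcongr
    exact hC.le x
  rintro f ⟨hf, h1 | h1 | rfl⟩ g ⟨hg, h2⟩
  · obtain ⟨C, hC⟩ := bd_of_mem hf
    obtain ⟨D, hD⟩ := bd_of_mem hg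
    exact ⟨(hC.mul hD).mem, .inl (mul_comm f g ▸ k g hg f h1)⟩
  · obtain ⟨C, hC⟩ := bd_of_mem hf
    obtain ⟨D, hD⟩ := bd_of_mem hg
    rcases h2 with h2 | h2 | rfl
    · exact ⟨(hC.mul hD).mem, .inl (k f hf g h2)⟩
    · refine ⟨(hC.mul hD).mem, .inl ((h1.1.add h2.1).of_nonneg_of_le (fun _ => by positivity)
        fun x => ?_)⟩
      rw [Pi.mul_apply, norm_mul]
      nlinarith [sq_nonneg (‖f x‖ ^ 2 - ‖g x‖ ^ 2), sq_nonneg (‖f x‖ * ‖g x‖)]
    · rw [mul_one]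
      exact ⟨hf, .inr (.inl h1)⟩
  · rw [one_mul]
    exact ⟨hg, h2⟩

lemma S_tr (e : G ≃ G) (he : ∀ x, e (x * z) = e x * z) {f : G → ℂ} (hf : f ∈ S)
    (hb : (fun x => f (e x)) ∈ B G) : (fun x => f (e x)) ∈ S := by
  refine ⟨hb, hf.2.imp (e.summable_iff (f := fun x => ‖f x‖ ^ 2)).2 (Or.imp (fun h =>
    ⟨(e.summable_iff (f := fun x => ‖f x‖ ^ 4)).2 h.1, fun x => by beta_reduce; rw [he, h.2]⟩) ?_)⟩
  rintro rfl
  rfl

lemma sep : ∃ x, Cau x ∧ (∀ s ∈ S, dual s x = 0) ∧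
    dual (fun g => conj (χ g * (7 / 25) ^ g.1.toWord.length)) x ≠ 0 := by
  have ex : ∀ n : ℕ, ∃ p : ℝ[X], ∀ t ∈ Set.Icc (-128 : ℝ) 128,
      |p.eval t - max (t - 32) 0| < 1 / (n + 1) := fun n =>
    exists_polynomial_near_of_continuousOn _ _ _ (by fun_prop) _ (by positivity)
  choose p hp using ex
  have rE : Rp E := ((Rp.π 1).add ((Rp.π z).smul _)).add ((Rp.π (z * z)).smul _)
  choose x hx using fun n => (Rp.h.aeval (p n)).mul rE
  replace hx : ∀ n ρ, op ρ (x n) = aeval (h ρ) (p n) * E ρ := hx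
  have hs : ∀ ρ, spectrum ℝ (h ρ) ⊆ Set.Icc (-128) 128 := fun ρ => spec ((h_le ρ (c := 64)
    ((norm_sum_le_of_le _ fun i _ => π_le ρ _).trans (by simp))).trans (by norm_num))
  have nb : ∀ ρ (q : ℝ[X]) (c : ℝ), 0 ≤ c → (∀ t ∈ spectrum ℝ (h ρ), |q.eval t| ≤ c) →
      ‖aeval (h ρ) q * E ρ‖ ≤ c * 4 := fun ρ q c hc hq => by
    refine (_root_.norm_mul_le _ _).trans (mul_le_mul ?_ (E_le ρ) (norm_nonneg _) hc)
    rw [← cfc_polynomial q _ (h_sa ρ)]
    exact norm_cfc_le hc hq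
  have t0 := tendsto_one_div_add_atTop_nhds_zero_nat (𝕜 := ℝ)
  have cau : Cau x := fun ε hε => by
    obtain ⟨N, hN⟩ := eventually_atTop.1 (t0.eventually_lt_const (show 0 < ε / 16 by positivity))
    refine ⟨N, fun m hm n hn => lt_of_le_of_lt (Real.iSup_le (a := ε / 8 * 4) (fun ρ => ?_)
      (by positivity)) (by linarith)⟩
    rw [op_eq, map_sub, ← op_eq, ← op_eq, hx, hx, ← sub_mul, ← map_sub]
    refine nb ρ _ _ (by positivity) fun t ht => ?_
    have h1 := abs_lt.1 ((hp m t (hs ρ ht)).trans (hN m hm))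
    have h2 := abs_lt.1 ((hp n t (hs ρ ht)).trans (hN n hn))
    rw [eval_sub, abs_le]
    constructor <;> linarith
  refine ⟨x, cau, fun s ⟨hb, hs⟩ => ?_, fun c => ?_⟩
  · refine tendsto_nhds_unique (tendsto_dual hb cau) ?_
    by_cases h2 : Summable fun x => ‖s x‖ ^ 2
    · obtain ⟨ξ, η, h3⟩ := coef_reg h2
      have := (t0.mul_const (4 * ‖ξ‖)).const_mul ‖η‖
      rw [zero_mul, mul_zero] at this
      refine squeeze_zero_norm (fun n => ?_) this
      rw [pair_coef h3, hx, ← mul_assoc (1 / _)]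
      refine (norm_inner_le_norm _ _).trans (mul_le_mul_of_nonneg_left
        (ContinuousLinearMap.le_of_opNorm_le _ (nb _ _ _ (by positivity) fun t ht => ?_) _)
        (norm_nonneg _))
      have h4 := spec (h_le _ reg_norm) ht
      have := hp n t ⟨by linarith [h4.1], by linarith [h4.2]⟩
      rw [max_eq_right (by linarith [h4.2]), sub_zero] at this
      exact this.le
    · obtain ⟨ρ, ξ, η, h3⟩ := hb
      have k : ∀ g, (0 : G → ℂ) g = ⟪η, ρ.π g (E ρ ξ)⟫_ℂ := fun g => by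
        simp only [E, add_apply, smul_apply, map_add,
          map_smul, π_π, inner_add_right, inner_smul_right, ← h3, mul_one, ← mul_assoc]
        rcases hs.resolve_left h2 with h4 | rfl
        · simp only [h4.2, Pi.zero_apply]
          linear_combination (Complex.I - 1) * s g * Complex.I_mul_I
        · simp
      refine tendsto_const_nhds.congr fun n => ?_
      obtain ⟨y, hy⟩ := Rp.h.aeval (p n)
      rw [pair_coef h3, hx, ← show op ρ y = aeval (h ρ) (p n) from hy ρ, mul_apply_eq_comp, ← pair_coef k]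
      simp [pair]
  · let ρ := σ ((starRingEnd ℂ).toMonoidHom.comp χ) fun g => by simp [χ_norm]
    let ξ : ρ.H := (lp.single 2 1 1 : L2 F)
    have k : ∀ g : G, conj (χ g * (7 / 25) ^ g.1.toWord.length) = ⟪ξ, ρ.π g ξ⟫_ℂ := fun g => by
      refine Eq.trans ?_ (σ_coef _ _ g)
      simp [map_ofNat]
    have zz : ρ.π z ξ = -Complex.I • ξ := by
      change conj Complex.I • PS 1 ξ = _
      rw [_root_.map_one, Complex.conj_I]
      rfl
    have e : E ρ ξ = (2 + 2 * Complex.I) • ξ := by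
      simp only [E, add_apply, smul_apply, ← π_π, zz,
        map_smul, smul_smul, _root_.map_one, one_apply_eq_self]
      match_scalars
      linear_combination (-1 - Complex.I) * Complex.I_mul_I
    have lim := tendsto_dual ⟨ρ, ξ, ξ, k⟩ cau
    rw [c] at lim
    have l2 := (Complex.continuous_re.tendsto _).comp (lim.const_mul (2 + 2 * Complex.I)⁻¹)
    have nz : (2 + 2 * Complex.I) ≠ 0 := fun c => by simpa using congrArg Complex.re c
    have := ge_of_tendsto' (b := 1) l2 fun n => by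
      have a : algebraMap ℝ _ (-33) + h ρ ≤ aeval (h ρ) (p n) := by
        rw [← cfc_polynomial _ _ (h_sa ρ), ← cfc_id' ℝ (h ρ) (h_sa ρ),
          ← cfc_const_add _ _ _ (ha := h_sa ρ), cfc_id' ℝ (h ρ) (h_sa ρ)]
        refine cfc_mono fun t ht => ?_
        have h1 := abs_lt.1 (hp n t (hs ρ ht))
        have h2 : (1 : ℝ) / (n + 1) ≤ 1 := div_le_one_of_le₀ (by simp) (by positivity)
        have := le_max_left (t - 32) 0
        linarith [h1.1]
      have b := ((ContinuousLinearMap.le_def _ _).1 a).re_inner_nonneg_right ξ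
      have n1 : ⟪ξ, ξ⟫_ℂ = 1 := by simpa using (k 1).symm
      simp only [Function.comp, pair_coef k, hx, mul_apply_eq_comp, e, map_smul,
        inner_smul_right, inv_mul_cancel_left₀ nz]
      generalize aeval (h ρ) (p n) = T at b ⊢
      simp only [h, sub_apply, add_apply, sum_apply,
        inner_sub_right, inner_add_right, inner_sum, ← k] at b
      have n2 : ⟪ξ, (33 : ℝ) • ξ⟫_ℂ = 33 := by
        rw [← Complex.coe_smul, inner_smul_right, n1]; simp
      simp [Algebra.algebraMap_eq_smul_one, χ, n2, invRev, map_ofNat] at b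
      norm_num at b
      linarith
    norm_num at this

/-- A discrete group `G` and a weak*-closed, translation-invariant (unital) subalgebra of `B(G)`
that is not closed under complex conjugation. -/
theorem result : ∃ (G : Type) (_ : Group G) (A : Subalgebra ℂ (G → ℂ)), (A : Set (G → ℂ)) ⊆ B G ∧
    IsClosed[weakStar G] {f : B G | f.1 ∈ A} ∧
    (∀ f ∈ A, ∀ s, (fun x => f (s * x)) ∈ A ∧ (fun x => f (x * s)) ∈ A) ∧
    ∃ f ∈ A, (fun x => conj (f x)) ∉ A := by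
  have sb : S ⊆ B G := fun _ h => h.1
  refine ⟨G, inferInstance, (cl S).toSubalgebra (sub_cl sb ⟨B_char 1 (by simp), .inr (.inr rfl)⟩)
    fun _ _ => cl_mul sb S_mul, fun _ h => h.1, cl_closed S, fun f hf s =>
    ⟨cl_left sb s (fun g hg => S_tr (.mulLeft s) (fun x => (mul_assoc _ _ _).symm) hg ?_) hf,
     cl_right sb s (fun g hg => S_tr (.mulRight s) (fun x => ?_) hg ?_) hf⟩,
    fun g => χ g * (7 / 25) ^ g.1.toWord.length, sub_cl sb ⟨⟨σ χ χ_norm, _, _, σ_coef χ χ_norm⟩,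
      .inr (.inl ⟨?_, fun x => ?_⟩)⟩, fun c => ?_⟩
  · obtain ⟨C, hC⟩ := bd_of_mem hg.1
    exact (hC.left s).mem
  · exact Prod.ext (by simp [z]) (mul_right_comm _ _ _)
  · obtain ⟨C, hC⟩ := bd_of_mem hg.1
    exact (hC.right s).mem
  · have := summ.mul_of_nonneg (Summable.of_finite (f := fun _ : rootsOfUnity 4 ℂ => (1 : ℝ)))
      (fun _ => by positivity) fun _ => zero_le_one
    simpa [χ_norm] using this
  · have : χ z = Complex.I := rfl
    beta_reduce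
    rw [_root_.map_mul, this]
    simp only [z, Prod.fst_mul, mul_one]
    ring
  · obtain ⟨x, h1, h2, h3⟩ := sep
    exact h3 (c.2 x h1 h2)

end Pool.Agent.Results.MP_f0f681_an.Counter
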